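import Mathlib
import Pool.Agent.H.MP_02f3ba_co.h16.Sauer
import Pool.Agent.H.MP_02f3ba_co.h7.Lim

/-!
# Discrepancy of sign sequences on progressions of fixed difference: an entropy threshold

If the running maximum `R` of `h` satisfies `∑ 1 / R(D) ^ 2 = ∞`, then the words of length `L` whose
sums over all progressions of difference `d` are at most `h d` number only `2 ^ (o(L))`. Hence every
sequence obeying a bound whose running maximum is `O(sqrt (D log D))` has zero topological entropy.
Conversely some sequence of positive entropy obeys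
`C sqrt d (1 + log d) ^ (3/2) (1 + log (1 + log d)) ^ 2`.
-/

namespace Pool.Agent.Results.MP_02f3ba_co.EntropyThreshold

open Filter Asymptotics Topology

/-- the running maximum `R_h(D) = max_{1 ≤ d ≤ D} h(d)` -/
noncomputable def runMax (h : ℕ → ℝ) (D : ℕ) : ℝ := sSup (h '' Set.Icc 1 D)

/-- A sequence of signs (indexed by the positive integers; the value `f 0` is never used) obeys `h`:
for every `d ≥ 1` every finite arithmetic progression `a, a + d, ..., a + (N - 1) d` of positive
integers satisfies `|∑ f| ≤ h d`. -/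
def SeqObeys (f : ℕ → ℤ) (h : ℕ → ℝ) : Prop :=
  (∀ n, f n = 1 ∨ f n = -1) ∧
    ∀ a d N : ℕ, 1 ≤ a → 1 ≤ d → |((∑ i ∈ Finset.range N, f (a + i * d) : ℤ) : ℝ)| ≤ h d

/-- A word `w` of signs of length `L` (its positions are `0, ..., L - 1`) obeys `h`: for every
`d ≥ 1` and every progression `a, a + d, ..., a + (N - 1) d`, the sum of `w` over the terms of the
progression that are positions of the word is at most `h d` in absolute value. -/
def WordObeys {L : ℕ} (w : Fin L → ℤ) (h : ℕ → ℝ) : Prop :=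
  (∀ i, w i = 1 ∨ w i = -1) ∧
    ∀ a d N : ℕ, 1 ≤ d →
      |((∑ i ∈ Finset.univ.filter (fun i : Fin L => ∃ k < N, (i : ℕ) = a + k * d), w i : ℤ) : ℝ)|
        ≤ h d

/-- The complexity of `f`: the number of its different factors `f(s), ..., f(s + L - 1)`, `s ≥ 1`,
of length `L`. -/
noncomputable def complexity (f : ℕ → ℤ) (L : ℕ) : ℕ :=
  {w : Fin L → ℤ | ∃ s : ℕ, 1 ≤ s ∧ ∀ i : Fin L, w i = f (s + i)}.ncard

theorem le_runMax (h : ℕ → ℝ) (D d : ℕ) (h1 : 1 ≤ d) (h2 : d ≤ D) : h d ≤ runMax h D :=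
  le_csSup ((Set.finite_Icc 1 D).image h).bddAbove (Set.mem_image_of_mem h ⟨h1, h2⟩)

theorem runMax_mono (h : ℕ → ℝ) {a b : ℕ} (ha : 1 ≤ a) (hab : a ≤ b) : runMax h a ≤ runMax h b := by
  apply csSup_le_csSup ((Set.finite_Icc 1 b).image h).bddAbove
  · exact ⟨h 1, Set.mem_image_of_mem h ⟨le_refl 1, ha⟩⟩
  · exact Set.image_mono (Set.Icc_subset_Icc_right hab)

/-- The number of words. -/
theorem words (h : ℕ → ℝ) (hdiv : ¬ Summable fun D : ℕ => 1 / runMax h (D + 1) ^ 2) (ε : ℝ)
    (hε : 0 < ε) : ∃ L₀ : ℕ, ∀ L ≥ L₀, ({w : Fin L → ℤ | WordObeys w h}.ncard : ℝ) ≤ 2 ^ (ε * L) := by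
  by_cases h1 : 1 ≤ h 1
  · have hR1 : ∀ d, 1 ≤ runMax h (max d 1) := fun d =>
      h1.trans (le_runMax h _ 1 le_rfl (le_max_right _ _))
    have hmono : Monotone fun d => runMax h (max d 1) := fun a b hab =>
      runMax_mono h (le_max_right _ _) (max_le_max hab le_rfl)
    have hs : ¬ Summable fun d => 1 / runMax h (max d 1) ^ 2 := by
      intro h2
      apply hdiv
      rw [← summable_nat_add_iff 1] at h2
      refine h2.congr fun D => ?_
      rw [max_eq_left (Nat.le_add_left 1 D)]
    exact H.MP_02f3ba_co.h16.ncard_words_le hmono hR1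
      (fun d hd => le_runMax h _ d hd (le_max_left _ _)) hs hε
  · refine ⟨1, fun L hL => ?_⟩
    have h2 : {w : Fin L → ℤ | WordObeys w h} = ∅ := by
      rw [Set.eq_empty_iff_forall_notMem]
      intro w hw
      apply h1
      have h3 := hw.2 0 1 1 le_rfl
      have h4 : ∀ S : Finset (Fin L), (∀ i : Fin L, i ∈ S ↔ (i : ℕ) = 0) →
          ∑ i ∈ S, w i = w (⟨0, by omega⟩ : Fin L) := by
        intro S hS
        have h5 : S = {(⟨0, by omega⟩ : Fin L)} := by
          ext i
          rw [hS i, Finset.mem_singleton, Fin.ext_iff]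
        rw [h5, Finset.sum_singleton]
      rw [h4 _ (fun i => ?_)] at h3
      swap
      · rw [Finset.mem_filter]
        constructor
        · rintro ⟨-, k, hk, hik⟩
          omega
        · intro hi
          exact ⟨Finset.mem_univ _, 0, by omega, by omega⟩
      rcases hw.1 ⟨0, by omega⟩ with h5 | h5
      · rw [h5] at h3
        simpa using h3
      · rw [h5] at h3
        simpa using h3
    rw [h2, Set.ncard_empty]
    simp only [Nat.cast_zero]
    positivity

/-- Factors of a sequence obeying `h` obey `h`. -/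
theorem factor_obeys {f : ℕ → ℤ} {h : ℕ → ℝ} (hf : SeqObeys f h) {s : ℕ} (hs : 1 ≤ s) (L : ℕ) :
    WordObeys (fun i : Fin L => f (s + i)) h := by
  refine ⟨fun i => hf.1 _, fun a d N hd => ?_⟩
  set N' : ℕ := if a < L then min N ((L - 1 - a) / d + 1) else 0 with hN'
  have key : ∀ k, k < N' ↔ k < N ∧ a + k * d < L := by
    intro k
    rw [hN']
    split_ifs with haL
    · rw [lt_min_iff, Nat.lt_add_one_iff, Nat.le_div_iff_mul_le (by omega)]
      constructor
      · rintro ⟨h1, h2⟩
        exact ⟨h1, by omega⟩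
      · rintro ⟨h1, h2⟩
        exact ⟨h1, by omega⟩
    · constructor
      · intro h1
        omega
      · rintro ⟨-, h2⟩
        exfalso
        generalize k * d = t at h2
        omega
  have h1 : Finset.univ.filter (fun i : Fin L => ∃ k < N, (i : ℕ) = a + k * d) =
      Finset.univ.filter (fun i : Fin L => ∃ k < N', (i : ℕ) = a + k * d) := by
    ext i
    rw [Finset.mem_filter, Finset.mem_filter]
    constructor
    · rintro ⟨h2, k, hk, hik⟩
      exact ⟨h2, k, (key k).2 ⟨hk, by rw [← hik]; exact i.2⟩, hik⟩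
    · rintro ⟨h2, k, hk, hik⟩
      exact ⟨h2, k, ((key k).1 hk).1, hik⟩
  rw [h1]
  have h2 := hf.2 (s + a) d N' (by omega) hd
  have h3 := H.MP_02f3ba_co.h16.sum_window (fun i : Fin L => f (s + i))
    (fun n => (f (s + n) : ℝ)) (fun i => rfl) hd (a := a) (N := N') (fun k hk => ((key k).1 hk).2)
  rw [← h3]
  convert h2 using 2
  push_cast
  refine Finset.sum_congr rfl fun k _ => ?_
  rw [add_assoc]

/-- The complexity of a sequence obeying `h`. -/
theorem complexity_le {f : ℕ → ℤ} {h : ℕ → ℝ} (hf : SeqObeys f h)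
    (hdiv : ¬ Summable fun D : ℕ => 1 / runMax h (D + 1) ^ 2) :
    Tendsto (fun L : ℕ => Real.logb 2 (complexity f L) / L) atTop (𝓝 0) := by
  rw [Metric.tendsto_atTop]
  intro ε hε
  obtain ⟨L₀, hL₀⟩ := words h hdiv (ε / 2) (by positivity)
  refine ⟨L₀ + 1, fun L hL => ?_⟩
  have hL0 : (0 : ℝ) < L := by
    have : 0 < L := by omega
    exact_mod_cast this
  have hfin : {w : Fin L → ℤ | WordObeys w h}.Finite := by
    refine (Set.Finite.pi' (t := fun _ : Fin L => ({1, -1} : Set ℤ))
      (fun _ => Set.toFinite _)).subset ?_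
    intro w hw i
    rcases hw.1 i with h1 | h1 <;> rw [h1] <;> simp
  have hsub : {w : Fin L → ℤ | ∃ s : ℕ, 1 ≤ s ∧ ∀ i : Fin L, w i = f (s + i)} ⊆
      {w : Fin L → ℤ | WordObeys w h} := by
    rintro w ⟨s, hs, hw⟩
    have h1 : w = fun i : Fin L => f (s + i) := funext hw
    rw [Set.mem_setOf_eq, h1]
    exact factor_obeys hf hs L
  have h1 : (complexity f L : ℝ) ≤ 2 ^ (ε / 2 * L) := by
    refine le_trans ?_ (hL₀ L (by omega))
    exact_mod_cast Set.ncard_le_ncard hsub hfin
  have h2 : 1 ≤ complexity f L := by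
    have h3 : {w : Fin L → ℤ | ∃ s : ℕ, 1 ≤ s ∧ ∀ i : Fin L, w i = f (s + i)}.Nonempty :=
      ⟨fun i => f (1 + i), 1, le_rfl, fun i => rfl⟩
    exact (Set.ncard_pos (hfin.subset hsub)).2 h3
  have h2R : (1 : ℝ) ≤ complexity f L := by exact_mod_cast h2
  have h3 : 0 ≤ Real.logb 2 (complexity f L) := Real.logb_nonneg (by norm_num) h2R
  have h4 : Real.logb 2 (complexity f L) ≤ ε / 2 * L := by
    rw [Real.logb_le_iff_le_rpow (by norm_num) (by linarith)]
    exact h1
  rw [Real.dist_eq, sub_zero, abs_of_nonneg (by positivity), div_lt_iff₀ hL0]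
  nlinarith

/-- `∑ 1 / (D log D)` diverges. -/
theorem not_summable_log :
    ¬ Summable fun n : ℕ => 1 / (((n + 1 : ℕ) : ℝ) * Real.log ((n + 1 : ℕ) : ℝ)) := by
  rw [← summable_condensed_iff_of_nonneg]
  · intro h
    have h1 : Summable fun k : ℕ => 1 / (2 * Real.log 2) * (1 / ((k + 1 : ℕ) : ℝ)) := by
      refine Summable.of_nonneg_of_le (fun k => ?_) (fun k => ?_) h
      · have : 0 < Real.log 2 := Real.log_pos (by norm_num)
        positivity
      · have hl2 : 0 < Real.log 2 := Real.log_pos (by norm_num)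
        have h2 : Real.log (((2 ^ k + 1 : ℕ)) : ℝ) ≤ (k + 1) * Real.log 2 := by
          have h3 : (((2 ^ k + 1 : ℕ)) : ℝ) ≤ 2 ^ (k + 1) := by
            have h4 : 2 ^ k + 1 ≤ 2 ^ (k + 1) := by
              have := Nat.one_le_two_pow (n := k)
              rw [pow_succ]
              omega
            exact_mod_cast h4
          calc Real.log (((2 ^ k + 1 : ℕ)) : ℝ) ≤ Real.log ((2 : ℝ) ^ (k + 1)) :=
                Real.log_le_log (by positivity) h3
            _ = (k + 1) * Real.log 2 := by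
                rw [Real.log_pow]
                push_cast
                ring
        have h5 : 0 < Real.log (((2 ^ k + 1 : ℕ)) : ℝ) := by
          apply Real.log_pos
          have : 1 < 2 ^ k + 1 := by
            have := Nat.one_le_two_pow (n := k)
            omega
          exact_mod_cast this
        have h6 : (((2 ^ k + 1 : ℕ)) : ℝ) ≤ 2 * 2 ^ k := by
          have h4 : 2 ^ k + 1 ≤ 2 * 2 ^ k := by
            have := Nat.one_le_two_pow (n := k)
            omega
          exact_mod_cast h4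
        have h7 : (0 : ℝ) < (((2 ^ k + 1 : ℕ)) : ℝ) := by positivity
        rw [one_div_mul_one_div, mul_one_div, div_le_div_iff₀ (by positivity) (by positivity),
          one_mul]
        push_cast at h2 h5 h6 h7 ⊢
        calc (2 ^ k + 1) * Real.log (2 ^ k + 1) ≤ (2 * 2 ^ k) * ((k + 1) * Real.log 2) := by
              gcongr
          _ = 2 ^ k * (2 * Real.log 2 * (k + 1)) := by ring
    rw [summable_mul_left_iff (by
      have : 0 < Real.log 2 := Real.log_pos (by norm_num)
      positivity)] at h1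
    exact Real.not_summable_one_div_natCast ((summable_nat_add_iff 1).1 h1)
  · intro n
    have : 0 ≤ Real.log ((n + 1 : ℕ) : ℝ) := Real.log_natCast_nonneg _
    positivity
  · intro m n hm hmn
    have h1 : 0 < Real.log ((m + 1 : ℕ) : ℝ) := by
      apply Real.log_pos
      have : 1 < m + 1 := by omega
      exact_mod_cast this
    have h2 : ((m + 1 : ℕ) : ℝ) ≤ ((n + 1 : ℕ) : ℝ) := by
      have : m + 1 ≤ n + 1 := by omega
      exact_mod_cast this
    have h3 : (0 : ℝ) < ((m + 1 : ℕ) : ℝ) := by positivity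
    apply one_div_le_one_div_of_le (by positivity)
    have h4 := Real.log_le_log h3 h2
    exact mul_le_mul h2 h4 h1.le (by positivity)

/-- A running maximum `O(sqrt (D log D))` is in the divergent range. -/
theorem not_summable_of_isBigO {h : ℕ → ℝ} (h1 : 1 ≤ h 1)
    (hO : (fun D : ℕ => runMax h D) =O[atTop] fun D : ℕ => Real.sqrt (D * Real.log D)) :
    ¬ Summable fun D : ℕ => 1 / runMax h (D + 1) ^ 2 := by
  obtain ⟨C, hC0, hC⟩ := hO.exists_pos
  rw [IsBigOWith, eventually_atTop] at hC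
  obtain ⟨N, hN⟩ := hC
  intro hs
  apply not_summable_log
  have h2 : Summable fun D : ℕ => C ^ 2 * (1 / runMax h (D + 1) ^ 2) := hs.mul_left _
  rw [← summable_nat_add_iff (N + 1)] at h2 ⊢
  refine Summable.of_nonneg_of_le (fun D => ?_) (fun D => ?_) h2
  · have : 0 ≤ Real.log ((D + (N + 1) + 1 : ℕ) : ℝ) := Real.log_natCast_nonneg _
    positivity
  · have h3 := hN (D + (N + 1) + 1) (by omega)
    have h4 : 1 ≤ runMax h (D + (N + 1) + 1) := h1.trans (le_runMax h _ 1 le_rfl (by omega))
    have h5 : 0 < Real.log ((D + (N + 1) + 1 : ℕ) : ℝ) := by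
      apply Real.log_pos
      have : 1 < D + (N + 1) + 1 := by omega
      exact_mod_cast this
    rw [Real.norm_of_nonneg (by linarith), Real.norm_of_nonneg (Real.sqrt_nonneg _)] at h3
    have h6 : runMax h (D + (N + 1) + 1) ^ 2 ≤
        C ^ 2 * (((D + (N + 1) + 1 : ℕ) : ℝ) * Real.log ((D + (N + 1) + 1 : ℕ) : ℝ)) := by
      calc runMax h (D + (N + 1) + 1) ^ 2
          ≤ (C * Real.sqrt (((D + (N + 1) + 1 : ℕ) : ℝ) *
              Real.log ((D + (N + 1) + 1 : ℕ) : ℝ))) ^ 2 :=
            pow_le_pow_left₀ (by linarith) h3 2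
        _ = _ := by rw [mul_pow, Real.sq_sqrt (by positivity)]
    rw [mul_one_div, div_le_div_iff₀ (by positivity) (by positivity), one_mul]
    exact h6

/-- A sequence of positive entropy. -/
theorem exists_positive : ∃ C : ℝ, 0 < C ∧ ∃ f : ℕ → ℤ,
    SeqObeys f (fun d => C * (Real.sqrt d * (1 + Real.log d) ^ (3 / 2 : ℝ) *
      (1 + Real.log (1 + Real.log d)) ^ 2)) ∧
    ∀ n : ℕ, 1 ≤ n → Real.exp ((n : ℝ) / 40) < complexity f n := by
  obtain ⟨f, hf1, hf2, hf3⟩ := H.MP_02f3ba_co.h7.exists_seq_rich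
  refine ⟨H.MP_02f3ba_co.h7.CC, H.MP_02f3ba_co.h7.CC_pos, fun n => f (n - 1),
    ⟨fun n => hf1 _, ?_⟩, ?_⟩
  · intro a d N ha hd
    have h0 := hf2 (a - 1) d N hd
    have h2 : ∀ i, f (a + i * d - 1) = f (a - 1 + i * d) := by
      intro i
      congr 1
      generalize i * d = t
      omega
    simp only [h2]
    exact h0.trans (H.MP_02f3ba_co.h7.final_bound d hd)
  · intro n hn
    obtain ⟨M, hM⟩ := hf3 n hn
    have hfin : {w : Fin n → ℤ | ∃ s : ℕ, 1 ≤ s ∧ ∀ i : Fin n, w i = f (s + i - 1)}.Finite := by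
      refine (Set.Finite.pi' (t := fun _ : Fin n => ({1, -1} : Set ℤ))
        (fun _ => Set.toFinite _)).subset ?_
      rintro w ⟨s, hs, hw⟩ i
      rw [hw i]
      rcases hf1 (s + i - 1) with h1 | h1 <;> rw [h1] <;> simp
    have h1 : (Finset.univ.image (fun (j : Fin M) => fun i : Fin n => f ((j : ℕ) * n + i))).card ≤
        complexity (fun n => f (n - 1)) n := by
      unfold complexity
      rw [← Set.ncard_coe_finset]
      refine Set.ncard_le_ncard ?_ hfin
      intro w hw
      rw [Finset.mem_coe, Finset.mem_image] at hw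
      obtain ⟨j, -, rfl⟩ := hw
      refine ⟨(j : ℕ) * n + 1, by omega, fun i => ?_⟩
      change f ((j : ℕ) * n + i) = f ((j : ℕ) * n + 1 + i - 1)
      congr 1
      generalize (j : ℕ) * n = t
      omega
    have h2 := hM.trans_le h1
    exact (Nat.floor_lt (Real.exp_pos _).le).1 h2

/-- **Entropy threshold.** (1) If `∑ 1 / R_h(D) ^ 2 = ∞`, then at most `2 ^ (ε L)` words of length `L`
obey `h`, for every `ε > 0` and all large `L`. (2) Every sequence obeying such an `h` has zero
topological entropy. (3) In particular every sequence obeying an `h` with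
`R_h(D) = O(sqrt (D log D))` has zero topological entropy. (4) For some `C > 0` a sequence obeying
`C sqrt d (1 + log d) ^ (3/2) (1 + log (1 + log d)) ^ 2` has positive topological entropy: more than
`exp (n / 40)` factors of every length `n`. -/
theorem result :
    (∀ h : ℕ → ℝ, (¬ Summable fun D : ℕ => 1 / runMax h (D + 1) ^ 2) →
      ∀ ε : ℝ, 0 < ε → ∃ L₀ : ℕ, ∀ L ≥ L₀,
        ({w : Fin L → ℤ | WordObeys w h}.ncard : ℝ) ≤ 2 ^ (ε * L)) ∧
    (∀ (h : ℕ → ℝ) (f : ℕ → ℤ), SeqObeys f h →
      (¬ Summable fun D : ℕ => 1 / runMax h (D + 1) ^ 2) →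
      Tendsto (fun L : ℕ => Real.logb 2 (complexity f L) / L) atTop (𝓝 0)) ∧
    (∀ (h : ℕ → ℝ) (f : ℕ → ℤ), SeqObeys f h →
      ((fun D : ℕ => runMax h D) =O[atTop] fun D : ℕ => Real.sqrt (D * Real.log D)) →
      Tendsto (fun L : ℕ => Real.logb 2 (complexity f L) / L) atTop (𝓝 0)) ∧
    (∃ C : ℝ, 0 < C ∧ ∃ f : ℕ → ℤ,
      SeqObeys f (fun d => C * (Real.sqrt d * (1 + Real.log d) ^ (3 / 2 : ℝ) *
        (1 + Real.log (1 + Real.log d)) ^ 2)) ∧
      ∀ n : ℕ, 1 ≤ n → Real.exp ((n : ℝ) / 40) < complexity f n) := by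
  refine ⟨words, fun h f hf hdiv => complexity_le hf hdiv, fun h f hf hO => ?_, exists_positive⟩
  refine complexity_le hf (not_summable_of_isBigO ?_ hO)
  have h1 := hf.2 1 1 1 le_rfl le_rfl
  rcases hf.1 1 with h2 | h2
  · simpa [h2] using h1
  · simpa [h2] using h1

end Pool.Agent.Results.MP_02f3ba_co.EntropyThreshold
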