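import Mathlib
import Pool.Agent.H.MP_02f3ba_co.SS.GD

/-!
# Discrepancy of sign sequences on progressions of bounded difference and unbounded length
-/

namespace Pool.Agent.Results.MP_02f3ba_co.SingleScale

/-- There is a constant `C` such that for every `D ≥ 1` some sequence `f` of signs on the positive
integers (the value `f 0` is never used) satisfies `|∑ f| ≤ C * sqrt D` on every finite arithmetic
progression `a, a + d, ..., a + (N - 1) d` of positive integers with `1 ≤ d ≤ D`, whatever its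
length `N`. -/
theorem result : ∃ C : ℝ, 0 < C ∧ ∀ D : ℕ, 1 ≤ D → ∃ f : ℕ → ℤ,
    (∀ n, f n = 1 ∨ f n = -1) ∧ ∀ a d N : ℕ, 1 ≤ a → 1 ≤ d → d ≤ D →
      |((∑ i ∈ Finset.range N, f (a + i * d) : ℤ) : ℝ)| ≤ C * Real.sqrt D := by
  obtain ⟨C, hC0, hC⟩ := Pool.Agent.H.MP_02f3ba_co.SS.single_scale
  refine ⟨C, hC0, fun D hD => ?_⟩
  obtain ⟨f, hf, hb⟩ := hC D hD
  exact ⟨f, hf, fun a d N _ hd hdD => hb a d N hd hdD⟩

end Pool.Agent.Results.MP_02f3ba_co.SingleScale
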