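import Mathlib
import Pool.Agent.H.MP_02f3ba_co.h7.Lim

/-!
# Discrepancy of sign sequences on progressions of fixed difference

There is one sign sequence whose sums over all arithmetic progressions of difference `d` are
`O(d^(1/2) (log d)^(3/2) (log log d)^2)`, for all `d` simultaneously; so the optimal running maximum
of an admissible function is `D^(1/2)` up to a factor `(log D)^(3/2) (log log D)^2`.
-/

namespace Pool.Agent.Results.MP_02f3ba_co.SquareRootUpToLogs

open Filter Asymptotics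

/-- `h` is admissible: there is a sequence `f` of signs (indexed by the positive integers; the value
`f 0` is never used) such that for every `d ≥ 1` every finite arithmetic progression
`a, a + d, ..., a + (N - 1) d` of positive integers satisfies `|∑ f| ≤ h d`. -/
def Admissible (h : ℕ → ℝ) : Prop :=
  ∃ f : ℕ → ℤ, (∀ n, f n = 1 ∨ f n = -1) ∧
    ∀ a d N : ℕ, 1 ≤ a → 1 ≤ d → |((∑ i ∈ Finset.range N, f (a + i * d) : ℤ) : ℝ)| ≤ h d

/-- the running maximum `R_h(D) = max_{1 ≤ d ≤ D} h(d)` -/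
noncomputable def runMax (h : ℕ → ℝ) (D : ℕ) : ℝ := sSup (h '' Set.Icc 1 D)

/-- For some constant `C > 0` the function
`h(d) = C d^(1/2) (1 + log d)^(3/2) (1 + log (1 + log d))^2` is admissible, and its running maximum
is `O(D^(1/2) (log D)^(3/2) (log log D)^2)` as `D → ∞`. -/
theorem result : ∃ C : ℝ, 0 < C ∧
    Admissible (fun d => C * (Real.sqrt d * (1 + Real.log d) ^ (3 / 2 : ℝ) *
      (1 + Real.log (1 + Real.log d)) ^ 2)) ∧
    (fun D : ℕ => runMax (fun d => C * (Real.sqrt d * (1 + Real.log d) ^ (3 / 2 : ℝ) *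
      (1 + Real.log (1 + Real.log d)) ^ 2)) D)
      =O[atTop] fun D : ℕ =>
        Real.sqrt D * Real.log D ^ (3 / 2 : ℝ) * Real.log (Real.log D) ^ 2 := by
  set C : ℝ := Pool.Agent.H.MP_02f3ba_co.h7.CC with hC
  have hC0 : 0 < C := Pool.Agent.H.MP_02f3ba_co.h7.CC_pos
  refine ⟨C, hC0, ?_, ?_⟩
  · obtain ⟨f, hf1, hf2, -⟩ := Pool.Agent.H.MP_02f3ba_co.h7.exists_seq_rich
    refine ⟨f, hf1, ?_⟩
    intro a d N _ hd
    exact (hf2 a d N hd).trans (Pool.Agent.H.MP_02f3ba_co.h7.final_bound d hd)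
  · set h : ℕ → ℝ := fun d => C * (Real.sqrt d * (1 + Real.log d) ^ (3 / 2 : ℝ) *
      (1 + Real.log (1 + Real.log d)) ^ 2) with hh
    have hnn : ∀ d : ℕ, 1 ≤ d → 0 ≤ h d := by
      intro d hd
      have hd1 : (1 : ℝ) ≤ d := by exact_mod_cast hd
      have h2 : 0 ≤ Real.log d := Real.log_nonneg hd1
      have h5 : 0 ≤ (1 + Real.log d) ^ (3 / 2 : ℝ) := Real.rpow_nonneg (by linarith) _
      simp only [hh]
      positivity
    rw [isBigO_iff]
    refine ⟨C * (2 ^ (3 / 2 : ℝ) * 3 ^ 2), ?_⟩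
    filter_upwards [eventually_ge_atTop 16] with D hD
    have hD2 : (16 : ℝ) ≤ D := by exact_mod_cast hD
    have hlogD : (2.7183 : ℝ) ≤ Real.log D := by
      have h1 := Real.log_le_log (by norm_num) hD2
      have h2 := Real.log_two_gt_d9
      have h3 : Real.log 16 = 4 * Real.log 2 := by
        rw [show (16 : ℝ) = 2 ^ 4 by norm_num, Real.log_pow]
        norm_num
      linarith
    have hlogD0 : 0 ≤ Real.log D := by linarith
    have hLL : 1 ≤ Real.log (Real.log D) := by
      rw [← Real.log_exp 1]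
      apply Real.log_le_log (Real.exp_pos 1)
      have := Real.exp_one_lt_d9
      linarith
    have hLL0 : 0 ≤ Real.log (1 + Real.log D) := Real.log_nonneg (by linarith)
    have hub : ∀ v ∈ h '' Set.Icc 1 D, v ≤ h D := by
      rintro v ⟨d, hd, rfl⟩
      have hd1 : (1 : ℝ) ≤ d := by exact_mod_cast hd.1
      have hdD : (d : ℝ) ≤ D := by exact_mod_cast hd.2
      have h1 : Real.log d ≤ Real.log D := Real.log_le_log (by linarith) hdD
      have h2 : 0 ≤ Real.log d := Real.log_nonneg hd1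
      have h3 : Real.sqrt d ≤ Real.sqrt D := Real.sqrt_le_sqrt hdD
      have h4 : (1 + Real.log d) ^ (3 / 2 : ℝ) ≤ (1 + Real.log D) ^ (3 / 2 : ℝ) :=
        Real.rpow_le_rpow (by linarith) (by linarith) (by norm_num)
      have h5 : 0 ≤ (1 + Real.log d) ^ (3 / 2 : ℝ) := Real.rpow_nonneg (by linarith) _
      have h6 : 0 ≤ Real.log (1 + Real.log d) := Real.log_nonneg (by linarith)
      have h7 : Real.log (1 + Real.log d) ≤ Real.log (1 + Real.log D) :=
        Real.log_le_log (by linarith) (by linarith)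
      have h8 : (1 + Real.log (1 + Real.log d)) ^ 2 ≤ (1 + Real.log (1 + Real.log D)) ^ 2 :=
        pow_le_pow_left₀ (by linarith) (by linarith) 2
      simp only [hh]
      refine mul_le_mul_of_nonneg_left ?_ hC0.le
      exact mul_le_mul (mul_le_mul h3 h4 h5 (Real.sqrt_nonneg _)) h8 (by positivity)
        (mul_nonneg (Real.sqrt_nonneg _) (Real.rpow_nonneg (by linarith) _))
    have hne : (h '' Set.Icc 1 D).Nonempty := ⟨_, 1, ⟨le_rfl, by omega⟩, rfl⟩
    have h0 : 0 ≤ runMax h D := by
      apply Real.sSup_nonneg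
      rintro v ⟨d, hd, rfl⟩
      exact hnn d hd.1
    have hle : runMax h D ≤ h D := csSup_le hne hub
    have h6 : (1 + Real.log D) ^ (3 / 2 : ℝ) ≤ 2 ^ (3 / 2 : ℝ) * Real.log D ^ (3 / 2 : ℝ) := by
      rw [← Real.mul_rpow (by norm_num) hlogD0]
      exact Real.rpow_le_rpow (by linarith) (by linarith) (by norm_num)
    have h7 : 0 ≤ Real.log D ^ (3 / 2 : ℝ) := Real.rpow_nonneg hlogD0 _
    have h8 : 1 + Real.log (1 + Real.log D) ≤ 3 * Real.log (Real.log D) := by
      have h9 : Real.log (1 + Real.log D) ≤ Real.log (2 * Real.log D) :=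
        Real.log_le_log (by linarith) (by linarith)
      rw [Real.log_mul (by norm_num) (by linarith)] at h9
      have h10 := Real.log_two_lt_d9
      linarith
    have h11 : (1 + Real.log (1 + Real.log D)) ^ 2 ≤ 3 ^ 2 * Real.log (Real.log D) ^ 2 := by
      rw [← mul_pow]
      exact pow_le_pow_left₀ (by linarith) h8 2
    rw [Real.norm_of_nonneg h0, Real.norm_of_nonneg (by positivity)]
    refine hle.trans ?_
    simp only [hh]
    calc C * (Real.sqrt D * (1 + Real.log D) ^ (3 / 2 : ℝ) * (1 + Real.log (1 + Real.log D)) ^ 2)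
        ≤ C * (Real.sqrt D * (2 ^ (3 / 2 : ℝ) * Real.log D ^ (3 / 2 : ℝ)) *
          (3 ^ 2 * Real.log (Real.log D) ^ 2)) := by
          apply mul_le_mul_of_nonneg_left _ hC0.le
          exact mul_le_mul (mul_le_mul_of_nonneg_left h6 (Real.sqrt_nonneg _)) h11 (by positivity)
            (by positivity)
      _ = C * (2 ^ (3 / 2 : ℝ) * 3 ^ 2) *
          (Real.sqrt D * Real.log D ^ (3 / 2 : ℝ) * Real.log (Real.log D) ^ 2) := by ring

end Pool.Agent.Results.MP_02f3ba_co.SquareRootUpToLogs
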