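import Mathlib
import Pool.Agent.H.MP_02f3ba_co.Roth
import Pool.Agent.H.MP_02f3ba_co.SS.Tower

/-!
# Discrepancy of sign sequences on progressions of fixed difference: the universal lower bound

The lower bounds valid for the running maximum of every admissible function are exactly the
functions `O(sqrt D)`; hence the only function (up to constants) that can be the optimal order of
growth is the square root, and it is one if and only if `C * sqrt d` is admissible.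
-/

namespace Pool.Agent.Results.MP_02f3ba_co.UniversalLowerBound

open Filter Asymptotics

/-- `h` is admissible: there is a sequence `f` of signs (indexed by the positive integers; the value
`f 0` is never used) such that for every `d ≥ 1` every finite arithmetic progression
`a, a + d, ..., a + (N - 1) d` of positive integers satisfies `|∑ f| ≤ h d`. -/
def Admissible (h : ℕ → ℝ) : Prop :=
  ∃ f : ℕ → ℤ, (∀ n, f n = 1 ∨ f n = -1) ∧
    ∀ a d N : ℕ, 1 ≤ a → 1 ≤ d → |((∑ i ∈ Finset.range N, f (a + i * d) : ℤ) : ℝ)| ≤ h d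

/-- the running maximum `R_h(D) = max_{1 ≤ d ≤ D} h(d)` -/
noncomputable def runMax (h : ℕ → ℝ) (D : ℕ) : ℝ := sSup (h '' Set.Icc 1 D)

theorem le_runMax (h : ℕ → ℝ) (D d : ℕ) (h1 : 1 ≤ d) (h2 : d ≤ D) : h d ≤ runMax h D :=
  le_csSup ((Set.finite_Icc 1 D).image h).bddAbove (Set.mem_image_of_mem h ⟨h1, h2⟩)

theorem runMax_le (h : ℕ → ℝ) (D : ℕ) (hD : 1 ≤ D) (B : ℝ)
    (hB : ∀ d, 1 ≤ d → d ≤ D → h d ≤ B) : runMax h D ≤ B := by
  refine csSup_le ⟨h 1, Set.mem_image_of_mem h ⟨le_refl 1, hD⟩⟩ ?_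
  rintro x ⟨d, hd, rfl⟩
  exact hB d hd.1 hd.2

theorem roth_runMax : ∃ c : ℝ, 0 < c ∧ ∀ h : ℕ → ℝ, Admissible h → ∀ D : ℕ, 1 ≤ D →
    c * Real.sqrt D ≤ runMax h D := by
  obtain ⟨c, hc, hR⟩ := MP02f3ba.roth_lower
  refine ⟨c, hc, fun h hh D hD => ?_⟩
  obtain ⟨f, hf, hfh⟩ := hh
  obtain ⟨a, d, N, ha, hd, hdD, hle⟩ := hR f hf D hD
  exact hle.trans ((hfh a d N ha hd).trans (le_runMax h D d hd hdD))

theorem sqrt_isBigO_runMax (h : ℕ → ℝ) (hh : Admissible h) :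
    (fun D : ℕ => Real.sqrt D) =O[atTop] fun D => runMax h D := by
  obtain ⟨c, hc, hR⟩ := roth_runMax
  refine IsBigO.of_bound c⁻¹ ?_
  filter_upwards [eventually_ge_atTop 1] with D hD
  have h1 := hR h hh D hD
  have h2 : 0 ≤ Real.sqrt (D : ℝ) := Real.sqrt_nonneg _
  have h3 : 0 ≤ runMax h D := le_trans (by positivity) h1
  rw [Real.norm_of_nonneg h2, Real.norm_of_nonneg h3]
  rw [← mul_le_mul_iff_right₀ hc, ← mul_assoc, mul_inv_cancel₀ hc.ne', one_mul]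
  exact h1

theorem tower_h (P : ℝ → ℕ → Prop) (hP : ∀ K : ℝ, ∀ N : ℕ, ∃ D, N < D ∧ P K D) :
    ∃ h : ℕ → ℝ, Admissible h ∧ ∃ (D : ℕ → ℕ) (K : ℕ → ℝ), StrictMono D ∧
      (∀ j, 1 ≤ D j) ∧ (∀ j : ℕ, (j : ℝ) ≤ K j) ∧ (∀ j, P (K j) (D j)) ∧
      ∀ j, runMax h (D j) ≤ K j * Real.sqrt (D j) := by
  obtain ⟨f, hf, D, K, hD, hD1, hK, hPj, hbd⟩ :=
    Pool.Agent.H.MP_02f3ba_co.SS.tower P hP
  have hbdd : ∀ d, 1 ≤ d → BddAbove {x : ℝ | ∃ a N : ℕ, 1 ≤ a ∧
      x = |((∑ i ∈ Finset.range N, f (a + i * d) : ℤ) : ℝ)|} := by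
    intro d hd
    refine ⟨K d * Real.sqrt (D d), ?_⟩
    rintro x ⟨a, N, _, rfl⟩
    exact hbd d a d N hd (hD.le_apply)
  refine ⟨fun d => sSup {x : ℝ | ∃ a N : ℕ, 1 ≤ a ∧
      x = |((∑ i ∈ Finset.range N, f (a + i * d) : ℤ) : ℝ)|}, ?_, D, K, hD, hD1, hK, hPj, ?_⟩
  · exact ⟨f, hf, fun a d N ha hd => le_csSup (hbdd d hd) ⟨a, N, ha, rfl⟩⟩
  · intro j
    refine runMax_le _ (D j) (hD1 j) _ fun d hd hdj => ?_
    refine csSup_le ⟨_, 1, 0, le_refl 1, rfl⟩ ?_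
    rintro x ⟨a, N, _, rfl⟩
    exact hbd j a d N hd hdj

theorem isBigO_sqrt_of_forall (H : ℕ → ℝ)
    (hH : ∀ h : ℕ → ℝ, Admissible h → H =O[atTop] fun D => runMax h D) :
    H =O[atTop] fun D : ℕ => Real.sqrt D := by
  by_contra hn
  have hP : ∀ K : ℝ, ∀ N : ℕ, ∃ D : ℕ, N < D ∧ K ^ 2 * Real.sqrt D ≤ |H D| := by
    intro K N
    by_contra hcon
    push Not at hcon
    apply hn
    refine IsBigO.of_bound (K ^ 2) ?_
    filter_upwards [eventually_gt_atTop N] with D hD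
    rw [Real.norm_eq_abs, Real.norm_of_nonneg (Real.sqrt_nonneg _)]
    exact (hcon D hD).le
  obtain ⟨h, hh, D, K, hD, hD1, hK, hPj, hrun⟩ :=
    tower_h (fun K D => K ^ 2 * Real.sqrt D ≤ |H D|) hP
  obtain ⟨c, hc, hev⟩ := (hH h hh).exists_pos
  obtain ⟨N0, hN0⟩ := eventually_atTop.mp hev.bound
  obtain ⟨c', hc', hR⟩ := roth_runMax
  obtain ⟨m, hm⟩ := exists_nat_gt c
  set j := max N0 m with hj
  have hDj : N0 ≤ D j := (le_max_left N0 m).trans hD.le_apply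
  have h1 := hN0 (D j) hDj
  have h2 : 0 ≤ runMax h (D j) := le_trans (by positivity) (hR h hh (D j) (hD1 j))
  rw [Real.norm_eq_abs, Real.norm_of_nonneg h2] at h1
  have h3 : 0 < Real.sqrt (D j : ℝ) := Real.sqrt_pos.mpr (by exact_mod_cast hD1 j)
  have h4 : c < K j := by
    refine lt_of_lt_of_le hm (le_trans ?_ (hK j))
    exact_mod_cast le_max_right N0 m
  have h5 : K j ^ 2 * Real.sqrt (D j : ℝ) ≤ c * (K j * Real.sqrt (D j : ℝ)) :=
    (hPj j).trans (h1.trans (mul_le_mul_of_nonneg_left (hrun j) hc.le))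
  have h6 : c * (K j * Real.sqrt (D j : ℝ)) < K j ^ 2 * Real.sqrt (D j : ℝ) := by
    have h7 : 0 < K j * Real.sqrt (D j : ℝ) := mul_pos (hc.trans h4) h3
    calc c * (K j * Real.sqrt (D j : ℝ)) < K j * (K j * Real.sqrt (D j : ℝ)) :=
          mul_lt_mul_of_pos_right h4 h7
      _ = K j ^ 2 * Real.sqrt (D j : ℝ) := by ring
  exact absurd h5 (not_le.mpr h6)

theorem admissible_sqrt_of_isBigO (h : ℕ → ℝ) (hh : Admissible h)
    (hO : (fun D => runMax h D) =O[atTop] fun D : ℕ => Real.sqrt D) :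
    ∃ C : ℝ, Admissible fun d => C * Real.sqrt d := by
  obtain ⟨C, hC, hev⟩ := hO.exists_pos
  obtain ⟨N0, hN0⟩ := eventually_atTop.mp hev.bound
  obtain ⟨f, hf, hfh⟩ := hh
  have hS : 0 ≤ ∑ x ∈ Finset.range N0, |h x| := Finset.sum_nonneg fun _ _ => abs_nonneg _
  refine ⟨C + ∑ x ∈ Finset.range N0, |h x|, f, hf, fun a d N ha hd => ?_⟩
  refine (hfh a d N ha hd).trans ?_
  have hs1 : 1 ≤ Real.sqrt (d : ℝ) := by
    rw [Real.one_le_sqrt]
    exact_mod_cast hd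
  rcases le_or_gt N0 d with hle | hlt
  · have h1 := hN0 d hle
    rw [Real.norm_eq_abs, Real.norm_of_nonneg (Real.sqrt_nonneg _)] at h1
    have h2 := (le_runMax h d d hd (le_refl d)).trans ((le_abs_self _).trans h1)
    have h3 : 0 ≤ (∑ x ∈ Finset.range N0, |h x|) * Real.sqrt (d : ℝ) :=
      mul_nonneg hS (Real.sqrt_nonneg _)
    show h d ≤ (C + ∑ x ∈ Finset.range N0, |h x|) * Real.sqrt (d : ℝ)
    rw [add_mul]
    linarith
  · have h1 : |h d| ≤ ∑ x ∈ Finset.range N0, |h x| :=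
      Finset.single_le_sum (f := fun x => |h x|) (fun _ _ => abs_nonneg _)
        (Finset.mem_range.mpr hlt)
    have h2 : (∑ x ∈ Finset.range N0, |h x|) ≤ (∑ x ∈ Finset.range N0, |h x|) *
        Real.sqrt (d : ℝ) := le_mul_of_one_le_right hS hs1
    have h3 : 0 ≤ C * Real.sqrt (d : ℝ) := mul_nonneg hC.le (Real.sqrt_nonneg _)
    show h d ≤ (C + ∑ x ∈ Finset.range N0, |h x|) * Real.sqrt (d : ℝ)
    rw [add_mul]
    linarith [le_abs_self (h d)]

/-- First part: `H` satisfies condition (ii) of Q1 (it is `O` of the running maximum of every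
admissible function) if and only if `H = O(sqrt D)`. Second part: `H` satisfies conditions (i) and
(ii) of Q1 if and only if `H = Θ(sqrt D)` and `C * sqrt d` is admissible for some constant `C`. -/
theorem result :
    (∀ H : ℕ → ℝ, (∀ h : ℕ → ℝ, Admissible h → H =O[atTop] fun D => runMax h D) ↔
      H =O[atTop] fun D : ℕ => Real.sqrt D) ∧
    (∀ H : ℕ → ℝ, ((∃ h : ℕ → ℝ, Admissible h ∧ (fun D => runMax h D) =O[atTop] H) ∧
        (∀ h : ℕ → ℝ, Admissible h → H =O[atTop] fun D => runMax h D)) ↔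
      (H =Θ[atTop] (fun D : ℕ => Real.sqrt D) ∧ ∃ C : ℝ, Admissible fun d => C * Real.sqrt d)) := by
  refine ⟨fun H => ⟨isBigO_sqrt_of_forall H, fun hH h hh =>
    hH.trans (sqrt_isBigO_runMax h hh)⟩, fun H => ⟨?_, ?_⟩⟩
  · rintro ⟨⟨h, hh, hO⟩, hall⟩
    have hH := isBigO_sqrt_of_forall H hall
    exact ⟨⟨hH, (sqrt_isBigO_runMax h hh).trans hO⟩,
      admissible_sqrt_of_isBigO h hh (hO.trans hH)⟩
  · rintro ⟨⟨hH1, hH2⟩, C, hC⟩
    refine ⟨⟨_, hC, IsBigO.trans ?_ hH2⟩, fun h hh => hH1.trans (sqrt_isBigO_runMax h hh)⟩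
    obtain ⟨c, hc, hR⟩ := roth_runMax
    refine IsBigO.of_bound |C| ?_
    filter_upwards [eventually_ge_atTop 1] with D hD
    have h1 : 0 ≤ runMax (fun d : ℕ => C * Real.sqrt d) D :=
      le_trans (by positivity) (hR _ hC D hD)
    rw [Real.norm_of_nonneg h1, Real.norm_of_nonneg (Real.sqrt_nonneg _)]
    refine runMax_le _ D hD _ fun d _ hd => ?_
    have h2 : Real.sqrt (d : ℝ) ≤ Real.sqrt (D : ℝ) := Real.sqrt_le_sqrt (by exact_mod_cast hd)
    calc C * Real.sqrt (d : ℝ) ≤ |C| * Real.sqrt (d : ℝ) :=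
          mul_le_mul_of_nonneg_right (le_abs_self C) (Real.sqrt_nonneg _)
      _ ≤ |C| * Real.sqrt (D : ℝ) := mul_le_mul_of_nonneg_left h2 (abs_nonneg C)

end Pool.Agent.Results.MP_02f3ba_co.UniversalLowerBound
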